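import Pool.Agent.H58.SO.Basic
import Pool.Agent.H19.BPG.UNI

/-!
MP_6ab439_lc, board sot_modules, row CFG.
-/

set_option autoImplicit false
set_option linter.unusedVariables false

namespace Pool.Agent.H42.SO

open Pool.Agent.H68.BP Pool.Agent.H58.SF Pool.Agent.H53.GC Pool.Agent.H53.NR Pool.Agent.H58.SO

theorem pf_CFG : T_CFG := by
  intro V X Θ _ M B W R _ _ rk t d hrk hsym hdiag hL hK
  let _ : LinearOrder W := LinearOrder.lift' rk hrk
  have hlt : ∀ x y : W, x < y ↔ rk x < rk y := fun x y => Iff.rfl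
  have hd0 : ∀ x : W, B.L (d x x) = t x := fun x => hL x x
  have hfree : ∀ x y : W, d y x = B.fr (t y) (t x) → d x y = B.fr (t x) (t y) := by
    intro x y h
    have h2 : d x y = B.inv (d y x) := hsym y x
    rw [h2, h, B.frI]
  obtain ⟨f, hf, hc⟩ := Pool.Agent.H19.BPG.pf_UNI V X B.c (fun a b => B.fr (B.L a) (B.L b)) M
    B.univ W d (by
    intro m s hm hsm hfr
    obtain ⟨u, -, hu⟩ := hK (Set.range s) (by
      have h1 : (Set.range s).ncard ≤ m := by
        rw [← Set.image_univ]
        refine (Set.ncard_image_le Set.finite_univ).trans ?_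
        rw [Set.ncard_univ, Nat.card_eq_fintype_card, Fintype.card_fin]
      exact h1.trans hm) (by
      rintro _ ⟨i, rfl⟩ _ ⟨j, rfl⟩ hne
      rcases lt_trichotomy i j with h | h | h
      · have h3 := hfr i j h
        simp only [hd0] at h3
        exact h3
      · exact absurd (by rw [h]) hne
      · intro h2
        have h3 := hfr j i h
        simp only [hd0] at h3
        exact h3 (hfree (s j) (s i) h2))
    exact ⟨fun i => u (s i), fun i j hij => hu _ ⟨i, rfl⟩ _ ⟨j, rfl⟩⟩)
  refine ⟨f, fun x y h => hf ((hlt x y).2 h), fun x y => ?_⟩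
  rcases le_total x y with h | h
  · exact hc x y h
  · rw [B.sym (f y) (f x), hsym y x, hc y x h]

end Pool.Agent.H42.SO
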