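import Pool.Agent.H58.SO.Basic

/-!
MP_6ab439_lc, board vto_modules, row SCF: configurations of entries with levels and ranks.
-/

set_option autoImplicit false
set_option linter.unusedVariables false

namespace Pool.Agent.H42.SO

open Pool.Agent.H68.BP Pool.Agent.H58.SF Pool.Agent.H53.GC Pool.Agent.H53.NR Pool.Agent.H58.SO

theorem pf_SCF (hSYS : T_SYS) : T_SCF := by
  intro V X Θ _ M B P I R _ _ _ x lev ρ supp hx
  classical
  let N : P × I → ℕ ×ₗ R := fun e => toLex (lev e.1 e.2, ρ e.1 e.2)
  have hfin : Finite (Set.range N) := (Set.finite_range N).to_subtype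
  let u : Set.range N → V := fun n => x n.2.choose.1 n.2.choose.2
  let name : P → I → Set.range N := fun a l => ⟨N (a, l), ⟨(a, l), rfl⟩⟩
  have hN : ∀ e e' : P × I, N e = N e' → lev e.1 e.2 = lev e'.1 e'.2 ∧ ρ e.1 e.2 = ρ e'.1 e'.2 := by
    intro e e' h
    have h1 : (lev e.1 e.2, ρ e.1 e.2) = (lev e'.1 e'.2, ρ e'.1 e'.2) := toLex.injective h
    exact Prod.mk.inj h1
  have hu : ∀ a l, u (name a l) = x a l := by
    intro a l
    have h1 := (name a l).2.choose_spec
    have h2 := hN _ (a, l) h1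
    exact (hx _ _ _ _ h2.1).1 h2.2
  let r : Set.range N → Set.range N → Prop := fun n n' =>
    (supp (ofLex n.1).1 ∩ supp (ofLex n'.1).1).Nonempty
  obtain ⟨e, he, het, hec⟩ := hSYS V X Θ M B (Set.range N) u r (by
    intro n n' h
    show (supp (ofLex n'.1).1 ∩ supp (ofLex n.1).1).Nonempty
    rw [Set.inter_comm]
    exact h)
  have hlt : ∀ a l b l', name a l < name b l' ↔
      lev a l < lev b l' ∨ (lev a l = lev b l' ∧ ρ a l < ρ b l') := by
    intro a l b l'
    show toLex (lev a l, ρ a l) < toLex (lev b l', ρ b l') ↔ _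
    rw [Prod.Lex.toLex_lt_toLex]
  have hr : ∀ a l b l', r (name a l) (name b l') ↔ (supp (lev a l) ∩ supp (lev b l')).Nonempty :=
    fun a l b l' => Iff.rfl
  refine ⟨fun a l => e (name a l), ⟨fun a l => ?_, fun a l b l' => ?_, fun a l b l' => ?_⟩⟩
  · show B.vt (e (name a l)) = B.vt (x a l)
    rw [het, hu]
  · show e (name a l) < e (name b l') ↔ _
    rw [he.lt_iff_lt, hlt]
  · show ((supp (lev a l) ∩ supp (lev b l')).Nonempty ∧ x a l ≠ x b l' →
      B.c (e (name a l)) (e (name b l')) = B.c (x a l) (x b l')) ∧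
      (¬ ((supp (lev a l) ∩ supp (lev b l')).Nonempty ∧ x a l ≠ x b l') →
      B.c (e (name a l)) (e (name b l')) = B.fr (B.vt (x a l)) (B.vt (x b l')))
    by_cases hne : name a l = name b l'
    · have h1 : N (a, l) = N (b, l') := congrArg Subtype.val hne
      have h2 := hN _ _ h1
      have h3 : x a l = x b l' := (hx a l b l' h2.1).1 h2.2
      refine ⟨fun h => absurd h3 h.2, fun _ => ?_⟩
      rw [hne, B.diag, het, hu, h3]
    · have h1 := hec (name a l) (name b l') hne
      rw [hu, hu, hr] at h1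
      exact h1

end Pool.Agent.H42.SO
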